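import Pool.Agent.N20.EW.Stm4
import Pool.Agent.N771.DICL2

/-!
# Project EK (helper20), part CPR (helper459): twisted commuting pairs and invariant characters
-/

set_option autoImplicit false

open scoped Classical BigOperators

noncomputable section

namespace Pool.Agent.N459.EKCPR

open Pool.Agent.Y63.NV
open Pool.Agent.Y63.KR
open Pool.Agent.Y63.AWC (IsIrreducibleCharacter)
open Pool.Agent.N20.EW
open Pool.Agent.Helper884.IC (B Irr mem_Irr IsClass IsIrrChar B_irr expand cardG_ne)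

/-- the number of the characters which are invariant under an automorphism -/
theorem core (N : Type) [Group N] [Fintype N] (b : MulAut N) :
    Nat.card N * Nat.card {ψ : N → ℂ // IsIrreducibleCharacter ψ ∧ ∀ x, ψ (b x) = ψ x} =
      Nat.card {a : N × N // a.1 * b a.2 * a.1⁻¹ = a.2} := by
  have h1 : Nat.card {ψ : N → ℂ // IsIrreducibleCharacter ψ ∧ ∀ x, ψ (b x) = ψ x} =
      ((Irr N).filter (fun ψ => ∀ x, ψ (b x) = ψ x)).card :=
    Nat.subtype_card _ fun ψ => by
      rw [Finset.mem_filter, mem_Irr]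
      exact Iff.rfl
  have h2 : Nat.card {a : N × N // a.1 * b a.2 * a.1⁻¹ = a.2} =
      ((Finset.univ : Finset (N × N)).filter (fun a => a.1 * b a.2 * a.1⁻¹ = a.2)).card :=
    Nat.subtype_card _ fun a => by
      rw [Finset.mem_filter]
      exact ⟨fun h => h.2, fun h => ⟨Finset.mem_univ _, h⟩⟩
  have key : ((Nat.card N * ((Irr N).filter (fun ψ => ∀ x, ψ (b x) = ψ x)).card : ℕ) : ℂ) =
      ((((Finset.univ : Finset (N × N)).filter (fun a => a.1 * b a.2 * a.1⁻¹ = a.2)).card : ℕ) :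
        ℂ) := by
    rw [Nat.cast_mul, Finset.card_filter, Finset.card_filter, Nat.cast_sum, Nat.cast_sum]
    have h3 : ∀ ψ ∈ Irr N, (((if ∀ x, ψ (b x) = ψ x then 1 else 0 : ℕ)) : ℂ) =
        B (fun x => ψ (b x)) ψ := by
      intro ψ hψ
      have hψ' := mem_Irr.1 hψ
      rw [B_irr (Pool.Agent.N771.DI.irr_comp b hψ') hψ']
      have h4 : (∀ x, ψ (b x) = ψ x) ↔ (fun x => ψ (b x)) = ψ :=
        ⟨fun h => funext h, fun h x => congrFun h x⟩
      by_cases h5 : ∀ x, ψ (b x) = ψ x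
      · rw [if_pos h5, if_pos (h4.1 h5), Nat.cast_one]
      · rw [if_neg h5, if_neg (fun h => h5 (h4.2 h)), Nat.cast_zero]
    rw [Finset.sum_congr rfl h3]
    unfold B
    rw [← Finset.mul_sum, ← mul_assoc, mul_inv_cancel₀ cardG_ne, one_mul, Finset.sum_comm]
    have h4 : ∀ x : N, ∑ ψ ∈ Irr N, ψ (b x) * ψ x⁻¹ =
        ∑ n : N, if n * b x * n⁻¹ = x then (1 : ℂ) else 0 :=
      fun x => Pool.Agent.N771.DI.second _ _
    simp only [h4]
    rw [Fintype.sum_prod_type, Finset.sum_comm]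
    refine Finset.sum_congr rfl fun n _ => Finset.sum_congr rfl fun x _ => ?_
    by_cases h5 : n * b x * n⁻¹ = x
    · rw [if_pos h5, if_pos h5, Nat.cast_one]
    · rw [if_neg h5, if_neg h5, Nat.cast_zero]
  rw [h1, h2]
  exact_mod_cast key

section red

variable {G : Type} [Group G] {α : MulAut G} {σ : Set (Subgroup G)}

/-- `β` maps the members of `σ` to themselves -/
theorem map_eq {g : G} (hg : ∀ P ∈ σ, conjSub g (P.map α.toMonoidHom) = P) :
    ∀ P ∈ σ, P.map (MulAut.conj g * α).toMonoidHom = P := by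
  intro P hP
  have h1 := hg P hP
  unfold conjSub at h1
  rw [Subgroup.map_map] at h1
  exact h1

theorem conj_map (β : MulAut G) (x : G) (P : Subgroup G) :
    (conjSub x P).map β.toMonoidHom = conjSub (β x) (P.map β.toMonoidHom) := by
  unfold conjSub
  rw [Subgroup.map_map, Subgroup.map_map]
  congr 1
  ext y
  change β (x * y * x⁻¹) = β x * β y * (β x)⁻¹
  rw [map_mul, map_mul, map_inv]

theorem mem_iff {β : MulAut G} (hβ : ∀ P ∈ σ, P.map β.toMonoidHom = P) (x : G) :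
    β x ∈ chainStabilizer σ ↔ x ∈ chainStabilizer σ := by
  rw [mem_chainStabilizer, mem_chainStabilizer]
  constructor
  · intro h P hP
    have h1 := conj_map β x P
    rw [hβ P hP, h P hP] at h1
    have h2 : (conjSub x P).map β.toMonoidHom = P.map β.toMonoidHom := h1.trans (hβ P hP).symm
    exact Subgroup.map_injective β.injective h2
  · intro h P hP
    have h1 := conj_map β x P
    rw [hβ P hP, h P hP, hβ P hP] at h1
    exact h1.symm

/-- the automorphism of the stabiliser -/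
def bN {β : MulAut G} (hβ : ∀ P ∈ σ, P.map β.toMonoidHom = P) : MulAut (chainStabilizer σ) where
  toFun x := ⟨β x, (mem_iff hβ x).2 x.2⟩
  invFun x := ⟨β.symm x, (mem_iff hβ _).1 (by rw [β.apply_symm_apply]; exact x.2)⟩
  left_inv x := Subtype.ext (β.symm_apply_apply _)
  right_inv x := Subtype.ext (β.apply_symm_apply _)
  map_mul' x y := Subtype.ext (map_mul β _ _)

theorem quot_mem {g g' : G} (hg : ∀ P ∈ σ, conjSub g (P.map α.toMonoidHom) = P)
    (hg' : ∀ P ∈ σ, conjSub g' (P.map α.toMonoidHom) = P) : g' * g⁻¹ ∈ chainStabilizer σ := by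
  rw [mem_chainStabilizer]
  intro P hP
  have h1 : conjSub g⁻¹ P = P.map α.toMonoidHom := by
    conv_lhs => rw [← hg P hP]
    exact conjSub_inv_conjSub g _
  rw [conjSub_mul, h1]
  exact hg' P hP

theorem mul_mem' {g n : G} (hg : ∀ P ∈ σ, conjSub g (P.map α.toMonoidHom) = P)
    (hn : n ∈ chainStabilizer σ) : ∀ P ∈ σ, conjSub (n * g) (P.map α.toMonoidHom) = P := by
  intro P hP
  rw [conjSub_mul, hg P hP]
  exact mem_chainStabilizer.1 hn P hP

theorem fixC_iff {g : G} (hg : ∀ P ∈ σ, conjSub g (P.map α.toMonoidHom) = P)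
    {ψ : chainStabilizer σ → ℂ} (hψ : IsClass ψ) :
    FixC α σ ψ ↔ ∀ x, ψ (bN (map_eq hg) x) = ψ x := by
  constructor
  · rintro ⟨g', hg', h⟩ x
    have h1 := h x ((⟨g' * g⁻¹, quot_mem hg hg'⟩ : chainStabilizer σ) * bN (map_eq hg) x *
      (⟨g' * g⁻¹, quot_mem hg hg'⟩ : chainStabilizer σ)⁻¹) (by
        change g' * g⁻¹ * (g * α x * g⁻¹) * (g' * g⁻¹)⁻¹ = g' * α x * g'⁻¹
        group)
    rw [hψ] at h1
    exact h1
  · intro h
    refine ⟨g, hg, fun x y hxy => ?_⟩
    have h1 : y = bN (map_eq hg) x := Subtype.ext hxy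
    rw [h1]
    exact h x

/-- the pairs -/
def prs {g : G} (hg : ∀ P ∈ σ, conjSub g (P.map α.toMonoidHom) = P) :
    {a : G × G // (∀ P ∈ σ, conjSub a.1 (P.map α.toMonoidHom) = P) ∧
      a.2 ∈ chainStabilizer σ ∧ a.1 * α a.2 * a.1⁻¹ = a.2} ≃
    {a : chainStabilizer σ × chainStabilizer σ //
      a.1 * bN (map_eq hg) a.2 * a.1⁻¹ = a.2} where
  toFun a := ⟨(⟨a.1.1 * g⁻¹, quot_mem hg a.2.1⟩, ⟨a.1.2, a.2.2.1⟩), Subtype.ext (by
    change a.1.1 * g⁻¹ * (g * α a.1.2 * g⁻¹) * (a.1.1 * g⁻¹)⁻¹ = a.1.2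
    refine Eq.trans ?_ a.2.2.2
    group)⟩
  invFun a := ⟨((a.1.1 : G) * g, (a.1.2 : G)), mul_mem' hg a.1.1.2, a.1.2.2, by
    have h1 := congrArg Subtype.val a.2
    change (a.1.1 : G) * (g * α a.1.2 * g⁻¹) * (a.1.1 : G)⁻¹ = a.1.2 at h1
    change (a.1.1 : G) * g * α a.1.2 * ((a.1.1 : G) * g)⁻¹ = a.1.2
    refine Eq.trans ?_ h1
    group⟩
  left_inv a := by
    apply Subtype.ext
    apply Prod.ext
    · change a.1.1 * g⁻¹ * g = a.1.1
      group
    · rfl
  right_inv a := by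
    apply Subtype.ext
    apply Prod.ext
    · apply Subtype.ext
      change (a.1.1 : G) * g * g⁻¹ = a.1.1
      group
    · rfl

end red

/-- CPR -/
theorem CPR : S_CPR := by
  intro G _ _ α σ
  by_cases hX : ∃ g : G, ∀ P ∈ σ, conjSub g (P.map α.toMonoidHom) = P
  · obtain ⟨g, hg⟩ := hX
    have : Fintype (chainStabilizer σ) := Fintype.ofFinite _
    rw [Nat.card_congr (prs hg), ← core (chainStabilizer σ) (bN (map_eq hg))]
    congr 1
    refine Nat.card_congr (Equiv.subtypeEquivRight fun ψ => ?_)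
    refine and_congr_right fun hψ => ?_
    exact fixC_iff hg (IsIrrChar.isClass hψ)
  · have h1 : IsEmpty {ψ : chainStabilizer σ → ℂ // IsIrreducibleCharacter ψ ∧ FixC α σ ψ} := by
      refine ⟨fun ψ => hX ?_⟩
      obtain ⟨g, hg, -⟩ := ψ.2.2
      exact ⟨g, hg⟩
    have h2 : IsEmpty {a : G × G // (∀ P ∈ σ, conjSub a.1 (P.map α.toMonoidHom) = P) ∧
        a.2 ∈ chainStabilizer σ ∧ a.1 * α a.2 * a.1⁻¹ = a.2} :=
      ⟨fun a => hX ⟨a.1.1, a.2.1⟩⟩
    rw [@Nat.card_of_isEmpty _ h1, @Nat.card_of_isEmpty _ h2, mul_zero]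

end Pool.Agent.N459.EKCPR
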