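import Pool.Agent.N699.AO.Stm

set_option autoImplicit false

/-! # Project AO (helper699), leaves FAV and FL2 (helper459): orthogonality -/

namespace Pool.Agent.N459.AO
open Finset Pool.Agent.N699.AO MeasureTheory

theorem ee_add (x y : ℝ) : ee (x + y) = ee x * ee y := by
  unfold ee
  rw [← Complex.exp_add]
  congr 1
  push_cast
  ring

theorem ee_zero : ee 0 = 1 := by
  simp [ee]

theorem norm_ee (x : ℝ) : ‖ee x‖ = 1 := by
  unfold ee
  have h : (2 * Real.pi * x * Complex.I : ℂ) = ((2 * Real.pi * x : ℝ) : ℂ) * Complex.I := by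
    push_cast; ring
  rw [h, Complex.norm_exp_ofReal_mul_I]

theorem conj_ee (x : ℝ) : (starRingEnd ℂ) (ee x) = ee (-x) := by
  unfold ee
  rw [← Complex.exp_conj]
  congr 1
  have h2 : (starRingEnd ℂ) (2 : ℂ) = 2 := map_ofNat _ 2
  simp [h2]

theorem ee_eq_one (x : ℝ) : ee x = 1 ↔ ∃ n : ℤ, x = n := by
  unfold ee
  rw [Complex.exp_eq_one_iff]
  have h0 : (2 * (Real.pi : ℂ) * Complex.I) ≠ 0 := Complex.two_pi_I_ne_zero
  constructor
  · rintro ⟨n, hn⟩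
    refine ⟨n, ?_⟩
    have h1 : (2 * (Real.pi : ℂ) * Complex.I) * (x : ℂ) = (2 * (Real.pi : ℂ) * Complex.I) * (n : ℂ) := by
      linear_combination hn
    have h2 := mul_left_cancel₀ h0 h1
    exact_mod_cast h2
  · rintro ⟨n, rfl⟩
    refine ⟨n, ?_⟩
    push_cast
    ring

theorem ee_int (m : ℤ) : ee (m : ℝ) = 1 := (ee_eq_one _).2 ⟨m, rfl⟩

theorem ee_nat_mul (c : ℕ) (x : ℝ) : ee (c * x) = ee x ^ c := by
  unfold ee
  rw [← Complex.exp_nat_mul]
  congr 1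
  push_cast
  ring

theorem geo (Q : ℕ) (hQ : 1 ≤ Q) (m : ℤ) :
    ∑ c ∈ range Q, ee ((m : ℝ) * ((c : ℝ) / Q)) = if (Q : ℤ) ∣ m then (Q : ℂ) else 0 := by
  have hQ0 : (Q : ℝ) ≠ 0 := by
    have : 0 < Q := hQ
    positivity
  have h1 : ∀ c : ℕ, ee ((m : ℝ) * ((c : ℝ) / Q)) = ee ((m : ℝ) / Q) ^ c := by
    intro c
    rw [← ee_nat_mul]
    congr 1
    ring
  simp only [h1]
  split_ifs with h
  · obtain ⟨t, rfl⟩ := h
    have h2 : (((Q : ℤ) * t : ℤ) : ℝ) / Q = (t : ℝ) := by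
      push_cast
      field_simp
    rw [h2, ee_int]
    simp
  · have h3 : ee ((m : ℝ) / Q) ≠ 1 := by
      intro h4
      obtain ⟨n, hn⟩ := (ee_eq_one _).1 h4
      apply h
      refine ⟨n, ?_⟩
      rw [div_eq_iff hQ0] at hn
      have : (m : ℝ) = ((Q : ℤ) * n : ℤ) := by
        rw [hn]; push_cast; ring
      exact_mod_cast this
    have h5 : ee ((m : ℝ) / Q) ^ Q = 1 := by
      rw [← ee_nat_mul]
      have : (Q : ℝ) * ((m : ℝ) / Q) = (m : ℝ) := by field_simp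
      rw [this, ee_int]
    have h6 := mul_geom_sum (ee ((m : ℝ) / Q)) Q
    rw [h5, sub_self] at h6
    exact (mul_eq_zero.1 h6).resolve_left (sub_ne_zero.2 h3)

theorem sq_EF (k M : ℕ) (α : ℝ) : ((‖EF k M α‖ ^ 2 : ℝ) : ℂ) =
    ∑ p ∈ SA k M ×ˢ SA k M, ee (((gz k p.1 - gz k p.2 : ℤ) : ℝ) * α) := by
  have h1 : ((‖EF k M α‖ ^ 2 : ℝ) : ℂ) = EF k M α * (starRingEnd ℂ) (EF k M α) := by
    rw [Complex.mul_conj, Complex.normSq_eq_norm_sq]
  rw [h1]
  unfold EF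
  rw [map_sum, sum_mul_sum, sum_product]
  refine sum_congr rfl fun a _ => sum_congr rfl fun b _ => ?_
  rw [conj_ee, ← ee_add]
  congr 1
  push_cast
  ring

theorem t_FAV : FAV := by
  intro k M Q hQ β
  have h1 : ((∑ c ∈ range Q, ‖EF k M ((c : ℝ) / Q + β)‖ ^ 2 : ℝ) : ℂ) =
      ∑ p ∈ SA k M ×ˢ SA k M, ee (((gz k p.1 - gz k p.2 : ℤ) : ℝ) * β) *
        (if (Q : ℤ) ∣ gz k p.1 - gz k p.2 then (Q : ℂ) else 0) := by
    rw [Complex.ofReal_sum]
    have h0 : ∀ c ∈ range Q, ((‖EF k M ((c : ℝ) / Q + β)‖ ^ 2 : ℝ) : ℂ) =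
        ∑ p ∈ SA k M ×ˢ SA k M, ee (((gz k p.1 - gz k p.2 : ℤ) : ℝ) * ((c : ℝ) / Q + β)) :=
      fun c _ => sq_EF k M _
    rw [sum_congr rfl h0, sum_comm]
    refine sum_congr rfl fun p _ => ?_
    rw [← geo Q hQ, mul_sum]
    refine sum_congr rfl fun c _ => ?_
    rw [← ee_add]
    congr 1
    ring
  have h2 : ∑ c ∈ range Q, ‖EF k M ((c : ℝ) / Q + β)‖ ^ 2 =
      ‖((∑ c ∈ range Q, ‖EF k M ((c : ℝ) / Q + β)‖ ^ 2 : ℝ) : ℂ)‖ := by
    rw [Complex.norm_real, Real.norm_of_nonneg]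
    exact sum_nonneg fun c _ => by positivity
  rw [h2, h1]
  refine (norm_sum_le _ _).trans ?_
  have h3 : ∀ p ∈ SA k M ×ˢ SA k M, ‖ee (((gz k p.1 - gz k p.2 : ℤ) : ℝ) * β) *
      (if (Q : ℤ) ∣ gz k p.1 - gz k p.2 then (Q : ℂ) else 0)‖ =
      if (Q : ℤ) ∣ gz k p.1 - gz k p.2 then (Q : ℝ) else 0 := by
    intro p _
    rw [norm_mul, norm_ee, one_mul]
    split_ifs
    · simp
    · simp
  rw [sum_congr rfl h3, ← sum_filter, sum_const, nsmul_eq_mul]
  unfold NQ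
  rw [mul_comm]

theorem gz_inj (k a b : ℕ) (h : gz k a = gz k b) : a = b := by
  unfold gz at h
  have h2 : (0 : ℤ) < 2 ^ k := by positivity
  have ha : (0 : ℤ) ≤ 2 ^ k * a := by positivity
  have hb : (0 : ℤ) ≤ 2 ^ k * b := by positivity
  have h3 : ((2 : ℤ) ^ k * a - 2 ^ k * b) * (20 * (2 ^ k * a + 2 ^ k * b) + 2) = 0 := by
    linear_combination h
  rcases mul_eq_zero.1 h3 with h4 | h4
  · have h5 : (2 : ℤ) ^ k * a = 2 ^ k * b := by linarith
    exact_mod_cast mul_left_cancel₀ h2.ne' h5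
  · exfalso
    linarith

theorem int_ee (m : ℤ) : ∫ α in (0 : ℝ)..1, ee ((m : ℝ) * α) = if m = 0 then 1 else 0 := by
  split_ifs with h
  · subst h
    simp [ee_zero]
  · unfold ee
    have hc : (2 * (Real.pi : ℂ) * m * Complex.I) ≠ 0 := by
      have h1 : (m : ℂ) ≠ 0 := by exact_mod_cast h
      have h2 : (Real.pi : ℂ) ≠ 0 := by exact_mod_cast Real.pi_ne_zero
      exact mul_ne_zero (mul_ne_zero (mul_ne_zero two_ne_zero h2) h1) Complex.I_ne_zero
    have h1 : ∀ α : ℝ, Complex.exp (2 * Real.pi * (((m : ℝ) * α : ℝ) : ℂ) * Complex.I) =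
        Complex.exp ((2 * (Real.pi : ℂ) * m * Complex.I) * α) := by
      intro α
      congr 1
      push_cast
      ring
    simp only [h1]
    rw [integral_exp_mul_complex hc]
    have h2 : Complex.exp ((2 * (Real.pi : ℂ) * m * Complex.I) * ((1 : ℝ) : ℂ)) = 1 := by
      rw [Complex.exp_eq_one_iff]
      exact ⟨m, by push_cast; ring⟩
    rw [h2]
    simp

theorem cont_ee (m : ℤ) : Continuous fun α : ℝ => ee ((m : ℝ) * α) := by
  unfold ee
  fun_prop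

theorem t_FL2 : FL2 := by
  intro k M
  have h1 : ((∫ α in (0 : ℝ)..1, ‖EF k M α‖ ^ 2 : ℝ) : ℂ) = ((SA k M).card : ℂ) := by
    rw [← intervalIntegral.integral_ofReal]
    simp only [sq_EF]
    rw [intervalIntegral.integral_finsetSum
      (fun p _ => (cont_ee (gz k p.1 - gz k p.2)).intervalIntegrable 0 1)]
    simp only [int_ee]
    rw [sum_product]
    have h2 : ∀ a ∈ SA k M, ∑ b ∈ SA k M, (if gz k (a : ℤ) - gz k (b : ℤ) = 0 then (1 : ℂ) else 0) = 1 := by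
      intro a ha
      rw [sum_eq_single_of_mem a ha]
      · simp
      · intro b _ hb
        rw [if_neg]
        intro h
        exact hb (gz_inj k a b (by linarith)).symm
    rw [sum_congr rfl h2]
    simp
  have h3 : ∫ α in (0 : ℝ)..1, ‖EF k M α‖ ^ 2 = ((SA k M).card : ℝ) := by exact_mod_cast h1
  exact h3.le

end Pool.Agent.N459.AO
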