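import Pool.Agent.N20.EW.Stm2
import Pool.Agent.N20.AE.Stm3
import Pool.Agent.Y624.NV.Trn

/-!
# Project EW (helper20), part WBIJ (helper459): equivariant bijections from the numbers of fixed points
-/

set_option autoImplicit false

open scoped Classical BigOperators

noncomputable section

namespace Pool.Agent.N459.EWWBIJ

open Pool.Agent.Y63.NV
open Pool.Agent.Y63.KR
open Pool.Agent.Y63.AWC (IsIrreducibleCharacter pSubgroupSetoid)
open Pool.Agent.N20.EW

/-! ### Automorphisms -/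

section aut

variable {F : Type} [Field F]

/-- the same subspaces are invariant -/
def subIso {J J' : Type} [Group J] [Group J'] (e : J ≃* J') {V : Type} [AddCommGroup V] [Module F V]
    (ρ : Representation F J' V) : Subrepresentation ρ ≃o Subrepresentation
      ((MonoidHom.comp ρ e.toMonoidHom : Representation F J V)) where
  toFun s := ⟨s.toSubmodule, fun g _ hv => s.apply_mem_toSubmodule (e g) hv⟩
  invFun s := ⟨s.toSubmodule, fun g v hv => by
    have h := s.apply_mem_toSubmodule (e.symm g) hv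
    change ρ (e (e.symm g)) v ∈ _ at h
    rwa [e.apply_symm_apply] at h⟩
  left_inv _ := rfl
  right_inv _ := rfl
  map_rel_iff' := Iff.rfl

theorem irr_comp {J J' : Type} [Group J] [Group J'] (e : J ≃* J') {χ : J' → F}
    (h : IsIrrTrace χ) : IsIrrTrace (fun x => χ (e x)) := by
  obtain ⟨V, i1, i2, i3, ρ, hρ, rfl⟩ := h
  refine ⟨V, i1, i2, i3, (MonoidHom.comp ρ e.toMonoidHom : Representation F J V), ?_, rfl⟩
  exact (subIso e ρ).isSimpleOrder_iff.1 hρ

variable {G : Type} [Group G]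

omit [Field F] in
theorem cl_aut {f : G → F} (hf : ∀ g x : G, f (g * x * g⁻¹) = f x) (α : MulAut G) :
    ∀ g x : G, f (α (g * x * g⁻¹)) = f (α x) := by
  intro g x
  rw [map_mul, map_mul, map_inv]
  exact hf _ _

omit [Field F] in
theorem inv_inv {B : (G → F) → F} {α : MulAut G} (h : InvA B α) : InvA B α⁻¹ := by
  intro f hf
  have h1 := h (fun x => f (α⁻¹ x)) (cl_aut hf α⁻¹)
  have h2 : (fun x => f (α⁻¹ (α x))) = f := by
    funext x
    exact congrArg f (α.symm_apply_apply x)
  rw [h2] at h1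
  exact h1.symm

omit [Field F] in
theorem inv_mul {B : (G → F) → F} {α β : MulAut G} (h : InvA B α) (h' : InvA B β) :
    InvA B (α * β) := by
  intro f hf
  exact (h' (fun x => f (α x)) (cl_aut hf α)).trans (h f hf)

omit [Field F] in
theorem inv_conj (B : (G → F) → F) (g : G) : InvA B (MulAut.conj g) := by
  intro f hf
  congr 1
  funext x
  exact hf g x

end aut

/-! ### Modular characters -/

section ibr

variable {F : Type} [Field F] {G : Type} [Group G]

/-- the action of an automorphism -/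
def actI {B : (G → F) → F} {α : MulAut G} (h : InvA B α) (φ : IBrB B) : IBrB B :=
  ⟨fun x => φ.1 (α.symm x), irr_comp α.symm φ.2.1, fun f hf x => by
    have h1 := φ.2.2 (fun g => f (α g)) (fun g x => cl_aut hf α g x) (α.symm x)
    rw [h f hf] at h1
    rw [← h1, ← finsum_comp_equiv α.toEquiv]
    refine finsum_congr fun g => ?_
    change f (α g) * φ.1 (α.symm (α g * x)) = _
    rw [map_mul, α.symm_apply_apply]⟩

/-- the permutation -/
def pI {B : (G → F) → F} {α : MulAut G} (h : InvA B α) : Equiv.Perm (IBrB B) where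
  toFun := actI h
  invFun := actI (inv_inv h)
  left_inv φ := Subtype.ext (by
    funext x
    change φ.1 (α.symm (α x)) = φ.1 x
    rw [α.symm_apply_apply])
  right_inv φ := Subtype.ext (by
    funext x
    change φ.1 (α (α.symm x)) = φ.1 x
    rw [α.apply_symm_apply])

theorem pI_pow {B : (G → F) → F} {α : MulAut G} (h : InvA B α) (k : ℕ) :
    ∀ (φ : IBrB B) (x : G), ((pI h ^ k) φ).1 ((α ^ k) x) = φ.1 x := by
  induction k with
  | zero =>
    intro φ x
    rfl
  | succ k ih =>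
    intro φ x
    rw [pow_succ, Equiv.Perm.mul_apply, pow_succ, MulAut.mul_apply, ih]
    change φ.1 (α.symm (α x)) = φ.1 x
    rw [α.symm_apply_apply]

theorem fixI {B : (G → F) → F} {α : MulAut G} (h : InvA B α) (k : ℕ) :
    Nat.card {φ : IBrB B // (pI h ^ k) φ = φ} = fixL B (α ^ k) := by
  refine Nat.card_congr
    { toFun := fun φ => ⟨φ.1.1, φ.1.2.1, φ.1.2.2, fun x => ?_⟩
      invFun := fun φ => ⟨⟨φ.1, φ.2.1, φ.2.2.1⟩, Subtype.ext ?_⟩
      left_inv := fun φ => rfl
      right_inv := fun φ => rfl }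
  · have h1 := pI_pow h k φ.1 x
    rw [φ.2] at h1
    exact h1
  · funext y
    obtain ⟨x, rfl⟩ := (α ^ k).surjective y
    rw [pI_pow h k]
    exact (φ.2.2.2 x).symm

end ibr

/-! ### Maps of pairs -/

section maps

variable {G : Type} [Group G]

theorem mem_iff {Q Q' : Subgroup G} {β : MulAut G} (h : Q' = Q.map β.toMonoidHom) (y : G) :
    β y ∈ Q' ↔ y ∈ Q := by
  rw [h]
  constructor
  · rintro ⟨z, hz, hzy⟩
    have h1 : z = y := β.injective hzy
    rwa [← h1]
  · intro hy
    exact ⟨y, hy, rfl⟩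

theorem nor {Q Q' : Subgroup G} {β : MulAut G} (h : Q' = Q.map β.toMonoidHom) (x : G) :
    β x ∈ Subgroup.normalizer (Q' : Set G) ↔ x ∈ Subgroup.normalizer (Q : Set G) := by
  rw [Subgroup.mem_normalizer_iff, Subgroup.mem_normalizer_iff]
  constructor
  · intro hx y
    have h1 := hx (β y)
    rw [mem_iff h, ← map_mul, ← map_inv, ← map_mul, mem_iff h] at h1
    exact h1
  · intro hx y
    have h1 := hx (β.symm y)
    have h2 := mem_iff h (β.symm y)
    have h3 := mem_iff h (x * β.symm y * x⁻¹)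
    rw [map_mul, map_mul, map_inv, β.apply_symm_apply] at h3
    rw [β.apply_symm_apply] at h2
    rw [h2, h3]
    exact h1

/-- the isomorphism of the normalisers -/
def nE {Q Q' : Subgroup G} {β : MulAut G} (h : Q' = Q.map β.toMonoidHom) :
    ↥(Subgroup.normalizer (Q : Set G)) ≃* ↥(Subgroup.normalizer (Q' : Set G)) where
  toFun x := ⟨β x, (nor h x).2 x.2⟩
  invFun y := ⟨β.symm y, (nor h _).1 (by rw [β.apply_symm_apply]; exact y.2)⟩
  left_inv x := Subtype.ext (β.symm_apply_apply _)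
  right_inv x := Subtype.ext (β.apply_symm_apply _)
  map_mul' x y := Subtype.ext (map_mul β _ _)

theorem maps_comp {β β' : MulAut G} {R R' R'' : Subgroup G}
    {ξ : Subgroup.normalizer (R : Set G) → ℂ} {ξ' : Subgroup.normalizer (R' : Set G) → ℂ}
    {ξ'' : Subgroup.normalizer (R'' : Set G) → ℂ} (h : Maps β ξ ξ') (h' : Maps β' ξ' ξ'') :
    Maps (β' * β) ξ ξ'' := by
  refine ⟨?_, fun x y hxy => ?_⟩
  · rw [h'.1, h.1, Subgroup.map_map]
    rfl
  · have h1 := h.2 x (nE h.1 x) rfl
    have h2 := h'.2 (nE h.1 x) y hxy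
    exact h2.trans h1

theorem maps_inv {β : MulAut G} {R R' : Subgroup G}
    {ξ : Subgroup.normalizer (R : Set G) → ℂ} {ξ' : Subgroup.normalizer (R' : Set G) → ℂ}
    (h : Maps β ξ ξ') : Maps β⁻¹ ξ' ξ := by
  refine ⟨?_, fun x y hxy => ?_⟩
  · ext z
    constructor
    · intro hz
      exact ⟨β z, (mem_iff h.1 z).2 hz, β.symm_apply_apply z⟩
    · rintro ⟨u, hu, hz⟩
      have h1 : β z = u := by
        rw [← hz]
        exact β.apply_symm_apply u
      rw [← mem_iff h.1, h1]
      exact hu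
  · have h1 : (x : G) = β y := by
      rw [hxy]
      exact (β.apply_symm_apply _).symm
    exact (h.2 y x h1).symm

theorem maps_one {R : Subgroup G} (ξ : Subgroup.normalizer (R : Set G) → ℂ) :
    Maps (1 : MulAut G) ξ ξ := by
  refine ⟨?_, fun x y hxy => ?_⟩
  · have h1 : ((1 : MulAut G)).toMonoidHom = MonoidHom.id G := rfl
    rw [h1, Subgroup.map_id]
  · have h1 : y = x := Subtype.ext hxy
    rw [h1]

theorem conj_mul (g g' : G) (β β' : MulAut G) :
    (MulAut.conj g' * β') * (MulAut.conj g * β) = MulAut.conj (g' * β' g) * (β' * β) := by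
  ext x
  change g' * β' (g * β x * g⁻¹) * g'⁻¹ = g' * β' g * β' (β x) * (g' * β' g)⁻¹
  rw [map_mul, map_mul, map_inv]
  group

theorem conj_inv (g : G) (β : MulAut G) :
    (MulAut.conj g * β)⁻¹ = MulAut.conj (β⁻¹ g⁻¹) * β⁻¹ := by
  rw [inv_eq_iff_mul_eq_one, conj_mul]
  have h1 : β (β⁻¹ g⁻¹) = g⁻¹ := β.apply_symm_apply _
  rw [h1, mul_inv_cancel, mul_inv_cancel, map_one, one_mul]

end maps

/-! ### Weights -/

section wts

variable {p : ℕ} {F : Type} [Field F] {red : integralClosure ℤ ℂ →+* F} {G : Type} [Group G]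
  {B : (G → F) → F}

/-- the weights correspond under the product of `β` and an inner automorphism -/
def Rl (β : MulAut G) (w w' : WtB p red B) : Prop :=
  ∃ g : G, Maps (MulAut.conj g * β) w.2.1 w'.2.1

theorem rl_one (w : WtB p red B) : Rl 1 w w := by
  refine ⟨1, ?_⟩
  rw [map_one, one_mul]
  exact maps_one _

theorem rl_comp {β β' : MulAut G} {w w' w'' : WtB p red B} (h : Rl β w w') (h' : Rl β' w' w'') :
    Rl (β' * β) w w'' := by
  obtain ⟨g, hg⟩ := h
  obtain ⟨g', hg'⟩ := h'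
  refine ⟨g' * β' g, ?_⟩
  rw [← conj_mul]
  exact maps_comp hg hg'

theorem rl_inv {β : MulAut G} {w w' : WtB p red B} (h : Rl β w w') : Rl β⁻¹ w' w := by
  obtain ⟨g, hg⟩ := h
  refine ⟨β⁻¹ g⁻¹, ?_⟩
  rw [← conj_inv]
  exact maps_inv hg

theorem uniq {β : MulAut G} {w w' w'' : WtB p red B} (h' : Rl β w w') (h'' : Rl β w w'') :
    w' = w'' := by
  obtain ⟨q, ξ, hξ⟩ := w
  obtain ⟨q', ξ', hξ'⟩ := w'
  obtain ⟨q'', ξ'', hξ''⟩ := w''
  obtain ⟨g, hg1, hg2⟩ := h'
  obtain ⟨k, hk1, hk2⟩ := h''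
  have hq : q' = q'' := by
    rw [← Quotient.out_equiv_out]
    refine ⟨k * g⁻¹, ?_⟩
    rw [hg1, hk1, Subgroup.map_map]
    congr 1
    ext x
    change k * β x * k⁻¹ = k * g⁻¹ * (g * β x * g⁻¹) * (k * g⁻¹)⁻¹
    group
  subst hq
  have hn : k * g⁻¹ ∈ Subgroup.normalizer (q'.out.1 : Set G) := by
    rw [Subgroup.mem_normalizer_iff]
    intro z
    obtain ⟨z0, rfl⟩ := (MulAut.conj g * β).surjective z
    rw [mem_iff hg1, ← mem_iff hk1]
    have h1 : (MulAut.conj k * β) z0 = k * g⁻¹ * (MulAut.conj g * β) z0 * (k * g⁻¹)⁻¹ := by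
      change k * β z0 * k⁻¹ = k * g⁻¹ * (g * β z0 * g⁻¹) * (k * g⁻¹)⁻¹
      group
    rw [h1]
  have hx : ξ' = ξ'' := by
    funext y
    obtain ⟨x, rfl⟩ := (nE hk1).surjective y
    have h1 := hk2 x (nE hk1 x) rfl
    have h2 := hg2 x (nE hg1 x) rfl
    have h3 := Pool.Agent.Y624.NV.irr_class hξ'.1.irr ⟨k * g⁻¹, hn⟩ (nE hg1 x)
    have h4 : (⟨k * g⁻¹, hn⟩ : Subgroup.normalizer (q'.out.1 : Set G)) * nE hg1 x *
        (⟨k * g⁻¹, hn⟩ : Subgroup.normalizer (q'.out.1 : Set G))⁻¹ = nE hk1 x := by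
      apply Subtype.ext
      change k * g⁻¹ * (g * β x * g⁻¹) * (k * g⁻¹)⁻¹ = k * β x * k⁻¹
      group
    rw [h4] at h3
    rw [h3]
    exact h2.trans h1.symm
  subst hx
  rfl

theorem exi {β : MulAut G} (hβ : InvA B β) (w : WtB p red B) : ∃ w', Rl β w w' := by
  obtain ⟨q, ξ, hξ1, hξ2⟩ := w
  have hp : IsPGroup p (q.out.1.map β.toMonoidHom) := q.out.2.map _
  obtain ⟨q', hq'⟩ : ∃ q' : Quotient (pSubgroupSetoid p G),
      q' = Quotient.mk _ ⟨q.out.1.map β.toMonoidHom, hp⟩ := ⟨_, rfl⟩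
  have h1 : (pSubgroupSetoid p G).r ⟨q.out.1.map β.toMonoidHom, hp⟩ q'.out := by
    apply Quotient.exact
    rw [← hq', Quotient.out_eq]
  obtain ⟨g, hg⟩ := h1
  have hg' : q'.out.1 = q.out.1.map (MulAut.conj g * β).toMonoidHom := by
    rw [hg, Subgroup.map_map]
    rfl
  have hinv : InvA B (MulAut.conj g * β) := inv_mul (inv_conj B g) hβ
  refine ⟨⟨q', fun y => ξ ((nE hg').symm y), ?_, fun f hf => ?_⟩, g, hg', fun x y hxy => ?_⟩
  · refine Pool.Agent.Y624.NV.isWt_comp (nE hg').symm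
      (Q := q'.out.1.subgroupOf (Subgroup.normalizer (q'.out.1 : Set G)))
      (Q' := q.out.1.subgroupOf (Subgroup.normalizer (q.out.1 : Set G))) (fun y => ?_) hξ1
    obtain ⟨x, rfl⟩ := (nE hg').surjective y
    rw [MulEquiv.symm_apply_apply, Subgroup.mem_subgroupOf, Subgroup.mem_subgroupOf]
    exact (mem_iff hg' x).symm
  · have h1 := Pool.Agent.Y624.NV.centralValue_comp red (nE hg').symm hξ1.irr
      (f := fun x : Subgroup.normalizer (q.out.1 : Set G) => f ((MulAut.conj g * β) x))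
      (fun a x => cl_aut hf (MulAut.conj g * β) a x)
    have h2 : (fun y : Subgroup.normalizer (q'.out.1 : Set G) =>
        f ((MulAut.conj g * β) ((nE hg').symm y))) =
        fun y : Subgroup.normalizer (q'.out.1 : Set G) => f y := by
      funext y
      exact congrArg f ((MulAut.conj g * β).apply_symm_apply y)
    rw [h2] at h1
    rw [h1]
    exact (hξ2 (fun x => f ((MulAut.conj g * β) x)) (fun a x => cl_aut hf _ a x)).trans (hinv f hf)
  · have h1 : y = nE hg' x := Subtype.ext hxy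
    change ξ ((nE hg').symm y) = ξ x
    rw [h1, MulEquiv.symm_apply_apply]

variable [Finite G]

instance fin_T (Q : Subgroup G) : Finite {ξ : Subgroup.normalizer (Q : Set G) → ℂ //
    IsWt p (Q.subgroupOf (Subgroup.normalizer (Q : Set G))) ξ ∧
    ∀ f : G → F, IsClassFun f → centralValue red ξ (fun x => f x) = B f} :=
  ((Pool.Agent.Y914.NV.irr ℂ (Subgroup.normalizer (Q : Set G))).1.subset
    (fun _ h => h.1.irr)).to_subtype

/-- the permutation of the weights -/
def pW {β : MulAut G} (hβ : InvA B β) : Equiv.Perm (WtB p red B) :=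
  Equiv.ofBijective (fun w => (exi hβ w).choose) (by
    rw [Function.Bijective, ← Finite.injective_iff_surjective, and_self_iff]
    intro w w' h
    have h1 := (exi hβ w).choose_spec
    have h2 := (exi hβ w').choose_spec
    have h3 : (exi hβ w).choose = (exi hβ w').choose := h
    rw [h3] at h1
    exact uniq (rl_inv h1) (rl_inv h2))

theorem pW_spec {β : MulAut G} (hβ : InvA B β) (w : WtB p red B) : Rl β w (pW hβ w) :=
  (exi hβ w).choose_spec

theorem pW_pow {β : MulAut G} (hβ : InvA B β) (k : ℕ) (w : WtB p red B) :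
    Rl (β ^ k) w ((pW hβ ^ k) w) := by
  induction k with
  | zero => exact rl_one w
  | succ k ih =>
    rw [pow_succ', pow_succ', Equiv.Perm.mul_apply]
    exact rl_comp ih (pW_spec hβ _)

theorem fixWt {β : MulAut G} (hβ : InvA B β) (k : ℕ) :
    Nat.card {w : WtB p red B // (pW hβ ^ k) w = w} = fixW p red B (β ^ k) := by
  have h1 : Nat.card {w : WtB p red B // (pW hβ ^ k) w = w} =
      Nat.card {w : WtB p red B // Rl (β ^ k) w w} := by
    refine Nat.card_congr (Equiv.subtypeEquivRight fun w => ?_)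
    constructor
    · intro h
      have h2 := pW_pow hβ k w
      rwa [h] at h2
    · intro h
      exact uniq (pW_pow hβ k w) h
  rw [h1]
  refine (Pool.Agent.N85.WM.card_sig (fun q : Quotient (pSubgroupSetoid p G) =>
    {ξ : Subgroup.normalizer (q.out.1 : Set G) → ℂ //
      IsWt p (q.out.1.subgroupOf (Subgroup.normalizer (q.out.1 : Set G))) ξ ∧
      ∀ f : G → F, IsClassFun f → centralValue red ξ (fun x => f x) = B f})
    (fun w : WtB p red B => Rl (β ^ k) w w)).trans ?_
  unfold fixW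
  refine finsum_congr fun q => ?_
  have key : ∀ ξ : Subgroup.normalizer (q.out.1 : Set G) → ℂ,
      (∃ g : G, Maps (MulAut.conj g * β ^ k) ξ ξ) ↔ FixW (β ^ k) q.out.1 ξ := by
    intro ξ
    constructor
    · rintro ⟨g, h2, h3⟩
      exact ⟨g, fun x => (mem_iff h2 x).symm, fun x y hxy => h3 x y hxy⟩
    · rintro ⟨g, h2, h3⟩
      refine ⟨g, ?_, fun x y hxy => h3 x y hxy⟩
      ext z
      constructor
      · intro hz
        obtain ⟨u, rfl⟩ := (MulAut.conj g * β ^ k).surjective z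
        exact ⟨u, (h2 u).2 hz, rfl⟩
      · rintro ⟨u, hu, rfl⟩
        exact (h2 u).1 hu
  refine Nat.card_congr
    { toFun := fun ξ => ⟨ξ.1.1, ξ.1.2.1, ξ.1.2.2, (key ξ.1.1).1 ξ.2⟩
      invFun := fun ξ => ⟨⟨ξ.1, ξ.2.1, ξ.2.2.1⟩, (key ξ.1).2 ξ.2.2.2⟩
      left_inv := fun ξ => rfl
      right_inv := fun ξ => rfl }

end wts

/-- WBIJ -/
theorem WBIJ (h : Pool.Agent.N20.AE.S_PERM) : S_WBIJ := by
  intro p _ F _ _ _ red G _ _ α B _ hB hfix
  have hfX : Finite (IBrB B) :=
    ((Pool.Agent.Y914.NV.irr F G).1.subset (fun _ h => h.1)).to_subtype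
  obtain ⟨e, he⟩ := h (IBrB B) (WtB p red B) (pI hB) (pW hB) (fun k => by
    rw [fixI, fixWt]
    exact hfix k)
  refine ⟨e, fun φ φ' hφ => ?_⟩
  have h1 : φ' = pI hB φ := by
    apply Subtype.ext
    funext y
    obtain ⟨x, rfl⟩ := α.surjective y
    change φ'.1 (α x) = φ.1 (α.symm (α x))
    rw [α.symm_apply_apply]
    exact hφ x
  rw [h1, he]
  exact pW_spec hB (e φ)

end Pool.Agent.N459.EWWBIJ
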