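import Pool.Agent.N404.KL.Stm

/-!
# KL/ESS: small ball probability of a sum of biased signs (Esseen)
-/

set_option autoImplicit false

namespace Pool.Agent.N459.KL_ESS

open Finset Pool.Agent.N404.KL MeasureTheory
open scoped Classical Real

/-- the Fejér kernel -/
noncomputable def Kf (y : ℝ) : ℝ := ∫ τ in (0 : ℝ)..1, 2 * (1 - τ) * Real.cos (τ * y)

theorem Kf_zero : Kf 0 = 1 := by
  unfold Kf
  simp only [mul_zero, Real.cos_zero, mul_one]
  have h : ∀ x ∈ Set.uIcc (0 : ℝ) 1, HasDerivAt (fun τ : ℝ => 2 * τ - τ ^ 2) (2 * (1 - x)) x := by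
    intro x _
    have h1 : HasDerivAt (fun τ : ℝ => 2 * τ - τ ^ 2) (2 * 1 - ((2 : ℕ) : ℝ) * x ^ (2 - 1)) x :=
      ((hasDerivAt_id x).const_mul 2).sub (hasDerivAt_pow 2 x)
    exact h1.congr_deriv (by norm_num; ring)
  rw [intervalIntegral.integral_eq_sub_of_hasDerivAt h
    ((by fun_prop : Continuous fun x : ℝ => 2 * (1 - x)).intervalIntegrable _ _)]
  norm_num

theorem Kf_eq {y : ℝ} (hy : y ≠ 0) : Kf y = 2 * (1 - Real.cos y) / y ^ 2 := by
  unfold Kf
  have h : ∀ x ∈ Set.uIcc (0 : ℝ) 1, HasDerivAt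
      (fun τ : ℝ => 2 * ((1 - τ) * (Real.sin (τ * y) / y) - Real.cos (τ * y) / y ^ 2))
      (2 * (1 - x) * Real.cos (x * y)) x := by
    intro x _
    have h0 : HasDerivAt (fun τ : ℝ => τ * y) y x := by
      simpa using (hasDerivAt_id x).mul_const y
    have h1 : HasDerivAt (fun τ : ℝ => Real.sin (τ * y) / y) (Real.cos (x * y)) x := by
      exact ((h0.sin).div_const y).congr_deriv (by field_simp)
    have h2 : HasDerivAt (fun τ : ℝ => Real.cos (τ * y) / y ^ 2) (- Real.sin (x * y) / y) x := by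
      exact ((h0.cos).div_const (y ^ 2)).congr_deriv (by field_simp)
    have h3 : HasDerivAt (fun τ : ℝ => 1 - τ) (-1) x := by
      simpa using (hasDerivAt_id x).const_sub 1
    have h4 := ((h3.mul h1).sub h2).const_mul 2
    exact h4.congr_deriv (by ring)
  rw [intervalIntegral.integral_eq_sub_of_hasDerivAt h
    ((by fun_prop : Continuous fun x : ℝ => 2 * (1 - x) * Real.cos (x * y)).intervalIntegrable _ _)]
  simp
  field_simp
  ring

theorem Kf_nonneg (y : ℝ) : 0 ≤ Kf y := by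
  rcases eq_or_ne y 0 with h | h
  · rw [h, Kf_zero]; norm_num
  · rw [Kf_eq h]
    have := Real.cos_le_one y
    have h2 : 0 < y ^ 2 := by positivity
    exact div_nonneg (by linarith) h2.le

theorem Kf_ge {y : ℝ} (hy : |y| ≤ 1) : 43 / 48 ≤ Kf y := by
  rcases eq_or_ne y 0 with h | h
  · rw [h, Kf_zero]; norm_num
  · rw [Kf_eq h]
    have h2 : 0 < y ^ 2 := by positivity
    rw [le_div_iff₀ h2]
    have h3 := (abs_le.1 (Real.cos_bound hy)).2
    have h4 : |y| ^ 4 = y ^ 2 * y ^ 2 := by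
      rw [show (4 : ℕ) = 2 * 2 from rfl, pow_mul, sq_abs]; ring
    have h5 : y ^ 2 ≤ 1 := by
      rw [← sq_abs]
      exact pow_le_one₀ (abs_nonneg _) hy
    rw [h4] at h3
    nlinarith

theorem sin_sq_ge {x : ℝ} (hx : |x| ≤ 1) : 9 / 16 * x ^ 2 ≤ Real.sin x ^ 2 := by
  have key : ∀ y : ℝ, 0 ≤ y → y ≤ 1 → 9 / 16 * y ^ 2 ≤ Real.sin y ^ 2 := by
    intro y hy0 hy1
    rcases hy0.eq_or_lt with h | h
    · rw [← h]; simp
    · have h1 := Real.sin_gt_sub_cube h
      have h0 : y ^ 3 ≤ y := by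
        calc y ^ 3 = y * (y * y) := by ring
          _ ≤ y * 1 := mul_le_mul_of_nonneg_left (by nlinarith) hy0
          _ = y := mul_one y
      have h2 : 3 / 4 * y ≤ Real.sin y := by linarith
      nlinarith
  rcases le_total 0 x with h | h
  · exact key x h (by rwa [abs_of_nonneg h] at hx)
  · have := key (-x) (by linarith) (by rwa [abs_of_nonpos h] at hx)
    rw [Real.sin_neg, neg_sq, neg_sq] at this
    exact this

variable {J : Type} [Fintype J] [DecidableEq J]

/-- the factor of the characteristic function -/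
theorem factor (β s t : ℝ) (b : Bool) : ∑ b' : Bool, (((1 + s * sg b * sg b') / 2 : ℝ) : ℂ) *
    Complex.exp ((t * (β * sg b') : ℝ) * Complex.I) =
      (Real.cos (β * t) : ℂ) + ((s * sg b * Real.sin (β * t) : ℝ) : ℂ) * Complex.I := by
  rw [Fintype.sum_bool]
  have h1 : Complex.exp ((t * (β * sg true) : ℝ) * Complex.I) =
      (Real.cos (β * t) : ℂ) + (Real.sin (β * t) : ℂ) * Complex.I := by
    rw [Complex.exp_mul_I, ← Complex.ofReal_cos, ← Complex.ofReal_sin]
    simp [sg, mul_comm]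
  have h2 : Complex.exp ((t * (β * sg false) : ℝ) * Complex.I) =
      (Real.cos (β * t) : ℂ) - (Real.sin (β * t) : ℂ) * Complex.I := by
    rw [Complex.exp_mul_I, ← Complex.ofReal_cos, ← Complex.ofReal_sin]
    have e : t * (β * sg false) = -(β * t) := by simp [sg]; ring
    rw [e, Real.cos_neg, Real.sin_neg]
    push_cast
    ring
  rw [h1, h2]
  simp only [sg]
  push_cast
  simp
  ring

theorem factor_norm {β s t : ℝ} (b : Bool) (hβ : |β| ≤ 1) (ht : |t| ≤ 1) (hs0 : 0 ≤ s)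
    (hs1 : s ≤ 1) :
    ‖(Real.cos (β * t) : ℂ) + ((s * sg b * Real.sin (β * t) : ℝ) : ℂ) * Complex.I‖ ≤
      Real.exp (-(9 / 32 * ((1 - s) * β ^ 2) * t ^ 2)) := by
  have hsg : sg b ^ 2 = 1 := by cases b <;> simp [sg]
  have h1 : ‖(Real.cos (β * t) : ℂ) + ((s * sg b * Real.sin (β * t) : ℝ) : ℂ) * Complex.I‖ ^ 2 =
      Real.cos (β * t) ^ 2 + s ^ 2 * Real.sin (β * t) ^ 2 := by
    rw [Complex.norm_add_mul_I, Real.sq_sqrt (by positivity)]
    rw [mul_pow, mul_pow, hsg]
    ring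
  have h2 : 9 / 16 * (β * t) ^ 2 ≤ Real.sin (β * t) ^ 2 := by
    apply sin_sq_ge
    rw [abs_mul]
    exact mul_le_one₀ hβ (abs_nonneg _) ht
  have h3 := Real.sin_sq_add_cos_sq (β * t)
  have h4 : Real.cos (β * t) ^ 2 + s ^ 2 * Real.sin (β * t) ^ 2 ≤
      1 - (1 - s) * (9 / 16 * (β * t) ^ 2) := by
    have h5 : (1 - s) * (9 / 16 * (β * t) ^ 2) ≤ (1 - s ^ 2) * Real.sin (β * t) ^ 2 := by
      have h6 : 1 - s ≤ 1 - s ^ 2 := by nlinarith
      exact mul_le_mul h6 h2 (by positivity) (by nlinarith)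
    nlinarith
  have h7 : 1 - (1 - s) * (9 / 16 * (β * t) ^ 2) ≤
      Real.exp (-((1 - s) * (9 / 16 * (β * t) ^ 2))) := by
    have := Real.add_one_le_exp (-((1 - s) * (9 / 16 * (β * t) ^ 2)))
    linarith
  have h8 : Real.exp (-((1 - s) * (9 / 16 * (β * t) ^ 2))) =
      Real.exp (-(9 / 32 * ((1 - s) * β ^ 2) * t ^ 2)) ^ 2 := by
    rw [← Real.exp_nat_mul]
    congr 1
    push_cast
    ring
  have h9 : ‖(Real.cos (β * t) : ℂ) + ((s * sg b * Real.sin (β * t) : ℝ) : ℂ) * Complex.I‖ ^ 2 ≤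
      Real.exp (-(9 / 32 * ((1 - s) * β ^ 2) * t ^ 2)) ^ 2 := by
    rw [h1, ← h8]
    exact h4.trans h7
  exact (pow_le_pow_iff_left₀ (norm_nonneg _) (Real.exp_pos _).le two_ne_zero).1 h9

/-- the characteristic function -/
theorem charf (β s : J → ℝ) (e : J → Bool) (t : ℝ) :
    ∑ e' : J → Bool, ((∏ k, ((1 + s k * sg (e k) * sg (e' k)) / 2) : ℝ) : ℂ) *
      Complex.exp ((t * ∑ k, β k * sg (e' k) : ℝ) * Complex.I) =
    ∏ k, ((Real.cos (β k * t) : ℂ) +
      ((s k * sg (e k) * Real.sin (β k * t) : ℝ) : ℂ) * Complex.I) := by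
  rw [Finset.prod_congr rfl fun k _ => (factor (β k) (s k) t (e k)).symm]
  rw [Finset.prod_univ_sum]
  rw [Fintype.piFinset_univ]
  refine Finset.sum_congr rfl fun e' _ => ?_
  rw [Finset.prod_mul_distrib]
  congr 1
  · push_cast
    rfl
  · rw [← Complex.exp_sum]
    congr 1
    rw [← Finset.sum_mul]
    congr 1
    push_cast
    rw [Finset.mul_sum]

theorem charf_re (β s : J → ℝ) (e : J → Bool) {t : ℝ} (hβ : ∀ k, |β k| ≤ 1)
    (hs0 : ∀ k, 0 ≤ s k) (hs1 : ∀ k, s k ≤ 1) (ht : |t| ≤ 1) :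
    ∑ e' : J → Bool, (∏ k, ((1 + s k * sg (e k) * sg (e' k)) / 2)) *
      Real.cos (t * ∑ k, β k * sg (e' k)) ≤
    Real.exp (-(9 / 32 * (∑ k, (1 - s k) * β k ^ 2) * t ^ 2)) := by
  have h1 := congrArg Complex.re (charf β s e t)
  have h2 : (∑ e' : J → Bool, ((∏ k, ((1 + s k * sg (e k) * sg (e' k)) / 2) : ℝ) : ℂ) *
      Complex.exp ((t * ∑ k, β k * sg (e' k) : ℝ) * Complex.I)).re =
      ∑ e' : J → Bool, (∏ k, ((1 + s k * sg (e k) * sg (e' k)) / 2)) *
      Real.cos (t * ∑ k, β k * sg (e' k)) := by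
    rw [Complex.re_sum]
    refine Finset.sum_congr rfl fun e' _ => ?_
    rw [Complex.re_ofReal_mul, Complex.exp_ofReal_mul_I_re]
  rw [← h2, h1]
  refine (Complex.re_le_norm _).trans ?_
  rw [norm_prod]
  have h3 : Real.exp (-(9 / 32 * (∑ k, (1 - s k) * β k ^ 2) * t ^ 2)) =
      ∏ k, Real.exp (-(9 / 32 * ((1 - s k) * β k ^ 2) * t ^ 2)) := by
    rw [← Real.exp_sum]
    congr 1
    rw [Finset.sum_neg_distrib, Finset.mul_sum, Finset.sum_mul]
  rw [h3]
  exact Finset.prod_le_prod (fun k _ => norm_nonneg _) fun k _ =>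
    factor_norm (e k) (hβ k) ht (hs0 k) (hs1 k)

theorem main : S_ESS := by
  intro J _ _ β s c e hβ hs0 hs1 hc
  set v : ℝ := ∑ k, (1 - s k) * β k ^ 2 with hv
  have hv0 : 0 ≤ v := Finset.sum_nonneg fun k _ =>
    mul_nonneg (by linarith [hs1 k]) (sq_nonneg _)
  rcases hv0.eq_or_lt with hv' | hv'
  · rw [← hv', Real.sqrt_zero, mul_zero]
    linarith
  have hc0 : 0 < c := by linarith
  set p : (J → Bool) → ℝ := fun e' => ∏ k, ((1 + s k * sg (e k) * sg (e' k)) / 2) with hp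
  set X : (J → Bool) → ℝ := fun e' => ∑ k, β k * sg (e' k) with hX
  have hp0 : ∀ e', 0 ≤ p e' := by
    intro e'
    refine Finset.prod_nonneg fun k _ => ?_
    have h1 : -1 ≤ sg (e k) * sg (e' k) := by
      cases e k <;> cases e' k <;> simp [sg]
    have h2 := hs0 k
    have h3 := hs1 k
    nlinarith
  set P : ℝ := ∑ e' : J → Bool, if |X e'| ≤ c then p e' else 0 with hP
  -- the bound with the kernel
  have h1 : 43 / 48 * P ≤ ∑ e', p e' * Kf (X e' / c) := by
    rw [hP, Finset.mul_sum]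
    refine Finset.sum_le_sum fun e' _ => ?_
    split_ifs with h
    · have h2 : |X e' / c| ≤ 1 := by
        rw [abs_div, abs_of_pos hc0, div_le_one hc0]
        exact h
      have h3 := Kf_ge h2
      have h4 := hp0 e'
      nlinarith
    · rw [mul_zero]
      exact mul_nonneg (hp0 e') (Kf_nonneg _)
  have h2 : ∑ e', p e' * Kf (X e' / c) =
      ∫ τ in (0 : ℝ)..1, 2 * (1 - τ) * ∑ e', p e' * Real.cos (τ / c * X e') := by
    unfold Kf
    rw [Finset.sum_congr rfl fun e' _ => (intervalIntegral.integral_const_mul (p e') _).symm,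
      ← intervalIntegral.integral_finsetSum]
    · refine intervalIntegral.integral_congr fun τ _ => ?_
      rw [Finset.mul_sum]
      refine Finset.sum_congr rfl fun e' _ => ?_
      rw [show τ * (X e' / c) = τ / c * X e' by ring]
      ring
    · intro e' _
      exact (by fun_prop : Continuous fun τ : ℝ =>
        p e' * (2 * (1 - τ) * Real.cos (τ * (X e' / c)))).intervalIntegrable _ _
  set b : ℝ := 9 / 32 * v / c ^ 2 with hb
  have hb0 : 0 < b := by positivity
  have h3 : ∫ τ in (0 : ℝ)..1, 2 * (1 - τ) * ∑ e', p e' * Real.cos (τ / c * X e') ≤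
      ∫ τ in (0 : ℝ)..1, 2 * Real.exp (-b * τ ^ 2) := by
    refine intervalIntegral.integral_mono_on zero_le_one ?_ ?_ fun τ hτ => ?_
    · exact (by fun_prop : Continuous fun τ : ℝ => 2 * (1 - τ) *
        ∑ e', p e' * Real.cos (τ / c * X e')).intervalIntegrable _ _
    · exact (by fun_prop : Continuous fun τ : ℝ => 2 * Real.exp (-b * τ ^ 2)).intervalIntegrable _ _
    · have h4 : |τ / c| ≤ 1 := by
        rw [abs_div, abs_of_pos hc0, abs_of_nonneg hτ.1, div_le_one hc0]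
        linarith [hτ.2]
      have h5 := charf_re β s e hβ hs0 hs1 h4
      have h6 : -(9 / 32 * (∑ k, (1 - s k) * β k ^ 2) * (τ / c) ^ 2) = -b * τ ^ 2 := by
        rw [hb, ← hv, div_pow]
        ring
      rw [h6] at h5
      have h7 : 0 ≤ 1 - τ := by linarith [hτ.2]
      have h8 : 0 < Real.exp (-b * τ ^ 2) := Real.exp_pos _
      calc 2 * (1 - τ) * ∑ e', p e' * Real.cos (τ / c * X e')
          ≤ 2 * (1 - τ) * Real.exp (-b * τ ^ 2) :=
            mul_le_mul_of_nonneg_left h5 (by linarith)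
        _ ≤ 2 * Real.exp (-b * τ ^ 2) := by
            refine mul_le_mul_of_nonneg_right ?_ h8.le
            linarith [hτ.1]
  have h4 : ∫ τ in (0 : ℝ)..1, 2 * Real.exp (-b * τ ^ 2) ≤ √(π / b) := by
    rw [intervalIntegral.integral_const_mul, intervalIntegral.integral_of_le zero_le_one]
    have h5 : ∫ τ in Set.Ioc (0 : ℝ) 1, Real.exp (-b * τ ^ 2) ≤
        ∫ τ in Set.Ioi (0 : ℝ), Real.exp (-b * τ ^ 2) := by
      refine setIntegral_mono_set (integrable_exp_neg_mul_sq hb0).integrableOn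
        (Filter.Eventually.of_forall fun τ => (Real.exp_pos _).le)
        (Filter.Eventually.of_forall fun τ hτ => hτ.1)
    rw [integral_gaussian_Ioi] at h5
    linarith
  have h5 : P ≤ 48 / 43 * √(π / b) := by
    have := h1.trans (h2.le.trans (h3.trans h4))
    linarith
  have h6 : √(π / b) * √v = √(π / b * v) := (Real.sqrt_mul (by positivity) _).symm
  have h7 : π / b * v = 32 / 9 * π * c ^ 2 := by
    rw [hb]
    field_simp
  have h8 : √(π / b * v) ≤ 43 / 12 * c := by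
    rw [h7]
    apply Real.sqrt_le_iff.2
    refine ⟨by positivity, ?_⟩
    have h9 := Real.pi_lt_d2
    have h10 : 0 < c ^ 2 := by positivity
    nlinarith
  calc P * √v ≤ 48 / 43 * √(π / b) * √v := mul_le_mul_of_nonneg_right h5 (Real.sqrt_nonneg _)
    _ = 48 / 43 * (√(π / b) * √v) := by ring
    _ = 48 / 43 * √(π / b * v) := by rw [h6]
    _ ≤ 48 / 43 * (43 / 12 * c) := mul_le_mul_of_nonneg_left h8 (by norm_num)
    _ = 4 * c := by ring

end Pool.Agent.N459.KL_ESS
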