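import Mathlib
import Pool.Agent.N604.MW.DMeas

/-!
# Project KW (helper604), task DBC: Borel-Cantelli
-/

set_option autoImplicit false

namespace Pool.Agent.N459.KW

open Finset MeasureTheory Pool.Agent.N604.MW Filter

lemma summ (C : ℝ) (a : ℕ) {c : ℝ} (hc : 0 < c) :
    Summable fun ν : ℕ => C * Real.log (2 * ((2 ^ ν : ℕ) : ℝ)) ^ a * ((2 ^ ν : ℕ) : ℝ) ^ (-c) := by
  set q : ℝ := (2 : ℝ) ^ (-c) with hq
  have hq0 : 0 < q := Real.rpow_pos_of_pos (by norm_num) _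
  have hq1 : q < 1 := Real.rpow_lt_one_of_one_lt_of_neg (by norm_num) (by linarith)
  have h1 : Summable fun ν : ℕ => (ν : ℝ) ^ a * q ^ ν :=
    summable_pow_mul_geometric_of_norm_lt_one a (by rwa [Real.norm_of_nonneg hq0.le])
  have h2 := ((summable_nat_add_iff 1).2 h1).mul_left (C * Real.log 2 ^ a * q⁻¹)
  refine h2.congr fun ν => ?_
  have e1 : Real.log (2 * ((2 ^ ν : ℕ) : ℝ)) = (ν + 1) * Real.log 2 := by
    push_cast
    rw [← pow_succ', Real.log_pow]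
    push_cast
    ring
  have e2 : ((2 ^ ν : ℕ) : ℝ) ^ (-c) = q ^ ν := by
    push_cast
    rw [hq, ← Real.rpow_natCast, ← Real.rpow_natCast, ← Real.rpow_mul (by norm_num),
      ← Real.rpow_mul (by norm_num)]
    congr 1
    ring
  rw [e1, e2]
  push_cast
  rw [mul_pow, pow_succ]
  field_simp

lemma bc {Ω : Type*} [MeasurableSpace Ω] (μ : Measure Ω) (E : ℕ → Set Ω) (f : ℕ → ℝ) (hf : Summable f)
    (ν1 : ℕ) (h : ∀ ν, ν1 ≤ ν → μ (E ν) ≤ ENNReal.ofReal (f ν)) :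
    ∀ᵐ ω ∂μ, ∃ ν0 : ℕ, ∀ ν, ν0 ≤ ν → ω ∉ E ν := by
  have h1 : ∀ᵐ ω ∂μ, ∀ᶠ ν in atTop, ω ∉ (if ν1 ≤ ν then E ν else ∅) := by
    apply ae_eventually_notMem
    refine ne_top_of_le_ne_top hf.tsum_ofReal_ne_top (ENNReal.tsum_le_tsum fun ν => ?_)
    split_ifs with hν
    · exact h ν hν
    · simp
  filter_upwards [h1] with ω hω
  obtain ⟨ν0, h0⟩ := eventually_atTop.1 hω
  refine ⟨max ν0 ν1, fun ν hν => ?_⟩
  have := h0 ν ((le_max_left _ _).trans hν)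
  rwa [if_pos ((le_max_right _ _).trans hν)] at this

/-- the first exceptional set -/
def E1 (s k r : ℕ) (δ δ' : ℝ) (ν : ℕ) : Set (Fin s → ℝ) :=
  {α | ((2 ^ ν : ℕ) : ℝ) ^ ((s : ℝ) - k - δ') <
    ∫ β in Arc (((2 ^ ν : ℕ) : ℝ) ^ (-(k : ℝ) + δ)) (((2 ^ ν : ℕ) : ℝ) ^ (-(k : ℝ) + (r : ℝ))),
      ∏ i, ‖TD k (2 ^ ν) (α i) β‖}

lemma part1 (h3 : S_DL1) {r k s : ℕ} {δ δ' c : ℝ} (hr : 1 ≤ r) (hrk : r + 8 ≤ k) (hs : 3 ≤ s) (hδ0 : 0 < δ)
    (hδ1 : δ < 1) (hc1 : c ≤ δ * ((s : ℝ) / 2 - 1)) (hc2 : c ≤ (s : ℝ) / 2 - r) (hδ' : δ' < c) :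
    ∀ᵐ α ∂(GM s), ∃ ν0 : ℕ, ∀ ν, ν0 ≤ ν → α ∉ E1 s k r δ δ' ν := by
  have hr1 : (1 : ℝ) ≤ r := by exact_mod_cast hr
  have hrk1 : (r : ℝ) < k := by exact_mod_cast (by omega : r < k)
  obtain ⟨C, hC, X0, hX⟩ := h3 k s δ r (by omega) hs hδ0 hδ1 hr1 hrk1
  refine bc (GM s) _ _ (summ (2 * C) s (sub_pos.2 hδ')) X0 fun ν hν => ?_
  set X : ℕ := 2 ^ ν with hXd
  have hX0 : X0 ≤ X := hν.trans (Nat.lt_two_pow_self).le
  have hX1 : (1 : ℝ) ≤ X := by exact_mod_cast (Nat.one_le_two_pow : 1 ≤ 2 ^ ν)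
  have hXpos : (0 : ℝ) < X := by linarith
  have hb := hX X hX0
  set T : ℝ := (X : ℝ) ^ ((s : ℝ) - k - δ') with hT
  have hTpos : 0 < T := Real.rpow_pos_of_pos hXpos _
  set I : (Fin s → ℝ) → ℝ := fun α => ∫ β in Arc ((X : ℝ) ^ (-(k : ℝ) + δ)) ((X : ℝ) ^ (-(k : ℝ) + (r : ℝ))),
      ∏ i, ‖TD k X (α i) β‖ with hI
  have hImeas : Measurable I := intProdD_measurable s k X _ _
  have hsub : E1 s k r δ δ' ν ⊆ {α | ENNReal.ofReal T ≤ ENNReal.ofReal (I α)} := by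
    intro α hα
    exact ENNReal.ofReal_le_ofReal (le_of_lt hα)
  have hmark := meas_ge_le_lintegral_div (μ := GM s) (hImeas.ennreal_ofReal.aemeasurable)
    (ε := ENNReal.ofReal T) (by simpa using hTpos) ENNReal.ofReal_ne_top
  have hle : ∫⁻ α, ENNReal.ofReal (I α) ∂(GM s) ≤
      ∫⁻ α, (∫⁻ β in Arc ((X : ℝ) ^ (-(k : ℝ) + δ)) ((X : ℝ) ^ (-(k : ℝ) + (r : ℝ))),
      ENNReal.ofReal (∏ i, ‖TD k X (α i) β‖)) ∂(GM s) := by
    refine lintegral_mono fun α => ?_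
    simp only [hI]
    rw [integral_eq_lintegral_of_nonneg_ae]
    · exact ENNReal.ofReal_toReal_le
    · exact Filter.Eventually.of_forall fun β => Finset.prod_nonneg fun i _ => norm_nonneg _
    · refine Continuous.aestronglyMeasurable ?_
      exact continuous_finsetProd _ fun i _ => (TD_continuous k X (α i)).norm
  refine (measure_mono hsub).trans (hmark.trans ?_)
  refine (ENNReal.div_le_div_right (hle.trans hb) _).trans ?_
  rw [← ENNReal.ofReal_div_of_pos hTpos]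
  refine ENNReal.ofReal_le_ofReal ?_
  have hlog : 0 ≤ Real.log (2 * (X : ℝ)) := Real.log_nonneg (by linarith)
  have e1 : (X : ℝ) ^ ((s : ℝ) - k - δ * ((s : ℝ) / 2 - 1)) ≤ (X : ℝ) ^ ((s : ℝ) - k - c) :=
    Real.rpow_le_rpow_of_exponent_le hX1 (by linarith)
  have e2 : (X : ℝ) ^ ((s : ℝ) / 2 - k + r) ≤ (X : ℝ) ^ ((s : ℝ) - k - c) :=
    Real.rpow_le_rpow_of_exponent_le hX1 (by linarith)
  rw [div_le_iff₀ hTpos]
  have e3 : (X : ℝ) ^ (-(c - δ')) * T = (X : ℝ) ^ ((s : ℝ) - k - c) := by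
    rw [hT, ← Real.rpow_add hXpos]
    congr 1
    ring
  have e4 : 2 * C * Real.log (2 * (X : ℝ)) ^ s * (X : ℝ) ^ (-(c - δ')) * T =
      C * Real.log (2 * (X : ℝ)) ^ s * ((X : ℝ) ^ ((s : ℝ) - k - c) + (X : ℝ) ^ ((s : ℝ) - k - c)) := by
    rw [mul_assoc _ _ T, e3]
    ring
  rw [e4]
  refine mul_le_mul_of_nonneg_left (add_le_add e1 e2) ?_
  positivity

/-- the second exceptional set -/
def E2 (s k r : ℕ) (δ' : ℝ) (ν : ℕ) : Set (Fin s → ℝ) :=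
  {α | ∃ N : ℤ, |(N : ℝ)| ≤ ((2 ^ ν : ℕ) : ℝ) ^ ((k : ℝ) + 1 / 4) ∧
    ((2 ^ ν : ℕ) : ℝ) ^ ((s : ℝ) - k - δ') <
      ‖ED s k (2 ^ ν) (((2 ^ ν : ℕ) : ℝ) ^ (-(k : ℝ) + (r : ℝ))) α N‖}

lemma part2 (h1 : S_DKEY) (h2 : S_DMOM) {r m k s : ℕ} {δ' : ℝ} (hr : 1 ≤ r) (hrk : r + 8 ≤ k)
    (hnr : nr r ≤ 2 * m) (hks : k ≤ s) (hH : r * k + k + 2 + (2 * m - r) * (r + 1) ≤ r * s) (hm : 1 ≤ m)
    (hδ' : 2 * m * δ' < 3 / 4) :
    ∀ᵐ α ∂(GM s), ∃ ν0 : ℕ, ∀ ν, ν0 ≤ ν → α ∉ E2 s k r δ' ν := by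
  obtain ⟨X0, hX⟩ := h1 r m k s hr hrk hnr hks hH
  obtain ⟨C, hC, hM⟩ := h2 s m (by omega) hm
  refine bc (GM s) _ _ (summ (3 * C) (2 * m * s) (sub_pos.2 hδ')) (X0 + 1) fun ν hν => ?_
  set X : ℕ := 2 ^ ν with hXd
  have hX0 : X0 ≤ X := by
    have := (Nat.lt_two_pow_self (n := ν)).le
    omega
  have hX2 : 2 ≤ X := by
    rw [hXd]
    calc 2 = 2 ^ 1 := by norm_num
      _ ≤ 2 ^ ν := Nat.pow_le_pow_right (by norm_num) (by omega)
  have hX2' : (2 : ℝ) ≤ X := by exact_mod_cast hX2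
  have hX1 : (1 : ℝ) ≤ X := by linarith
  have hXpos : (0 : ℝ) < X := by linarith
  set η : ℝ := (X : ℝ) ^ (-(k : ℝ) + (r : ℝ)) with hη
  have hη0 : 0 < η := Real.rpow_pos_of_pos hXpos _
  have hη1 : η ≤ 1 / 2 := by
    have hrk1 : (r : ℝ) + 8 ≤ k := by exact_mod_cast hrk
    calc η ≤ (X : ℝ) ^ (-1 : ℝ) := Real.rpow_le_rpow_of_exponent_le hX1 (by linarith)
      _ = (X : ℝ)⁻¹ := Real.rpow_neg_one _
      _ ≤ 2⁻¹ := inv_anti₀ (by norm_num) hX2'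
      _ = 1 / 2 := by norm_num
  set T : ℝ := (X : ℝ) ^ ((s : ℝ) - k - δ') with hT
  have hTpos : 0 < T := Real.rpow_pos_of_pos hXpos _
  have hlog : 0 ≤ Real.log (2 * (X : ℝ)) := Real.log_nonneg (by linarith)
  -- one N
  have hone : ∀ N : ℤ, (GM s) {α | T < ‖ED s k X η α N‖} ≤
      ENNReal.ofReal (C * Real.log (2 * (X : ℝ)) ^ (2 * m * s) * (X : ℝ) ^ (2 * m * δ' - k - 1)) := by
    intro N
    have hTm : 0 < T ^ (2 * m) := pow_pos hTpos _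
    have hsub : {α : Fin s → ℝ | T < ‖ED s k X η α N‖} ⊆
        {α | ENNReal.ofReal (T ^ (2 * m)) ≤ ENNReal.ofReal (‖ED s k X η α N‖ ^ (2 * m))} := by
      intro α hα
      exact ENNReal.ofReal_le_ofReal (pow_le_pow_left₀ hTpos.le (le_of_lt hα) _)
    have hmeas : Measurable fun α : Fin s → ℝ => ENNReal.ofReal (‖ED s k X η α N‖ ^ (2 * m)) :=
      ((ED_measurable s k X η N).norm.pow_const _).ennreal_ofReal
    have hmark := meas_ge_le_lintegral_div (μ := GM s) hmeas.aemeasurable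
      (ε := ENNReal.ofReal (T ^ (2 * m))) (by simpa using hTm) ENNReal.ofReal_ne_top
    refine (measure_mono hsub).trans (hmark.trans ?_)
    have hb := (hM k X η N hX2 hη0 hη1).trans (mul_le_mul_right (hX X hX0) _)
    refine (ENNReal.div_le_div_right hb _).trans ?_
    rw [← ENNReal.ofReal_mul (by positivity), ← ENNReal.ofReal_div_of_pos hTm]
    refine ENNReal.ofReal_le_ofReal (le_of_eq ?_)
    rw [div_eq_iff hTm.ne']
    have e0 : (X : ℝ) ^ (2 * (m : ℝ) * ((s : ℝ) - k) - k - 1) =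
        (X : ℝ) ^ (2 * m * δ' - k - 1) * T ^ (2 * m) := by
      rw [hT, ← Real.rpow_natCast ((X : ℝ) ^ ((s : ℝ) - k - δ')), ← Real.rpow_mul hXpos.le,
        ← Real.rpow_add hXpos]
      congr 1
      push_cast
      ring
    rw [e0]
    ring
  -- the union
  set Y : ℝ := (X : ℝ) ^ ((k : ℝ) + 1 / 4) with hY
  have hY1 : 1 ≤ Y := Real.one_le_rpow hX1 (by positivity)
  set M : ℤ := ⌊Y⌋ with hMd
  have hM0 : 0 ≤ M := Int.floor_nonneg.2 (by linarith)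
  have hsub : E2 s k r δ' ν ⊆ ⋃ N ∈ Finset.Icc (-M) M, {α | T < ‖ED s k X η α N‖} := by
    rintro α ⟨N, hN, hα⟩
    have h1 : |N| ≤ M := by
      refine Int.le_floor.2 ?_
      push_cast
      exact hN
    simp only [Set.mem_iUnion]
    exact ⟨N, Finset.mem_Icc.2 (abs_le.1 h1), hα⟩
  have hcard : ((Finset.Icc (-M) M).card : ℝ) ≤ 3 * Y := by
    rw [Int.card_Icc]
    have h2 : (((M + 1 - -M).toNat : ℕ) : ℝ) = 2 * M + 1 := by
      have h3 : (((M + 1 - -M).toNat : ℕ) : ℤ) = M + 1 - -M := Int.toNat_of_nonneg (by omega)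
      have h4 : (((M + 1 - -M).toNat : ℕ) : ℝ) = ((M + 1 - -M : ℤ) : ℝ) := by
        rw [← h3]
        rfl
      rw [h4]
      push_cast
      ring
    rw [h2]
    have h5 : (M : ℝ) ≤ Y := Int.floor_le _
    linarith
  refine (measure_mono hsub).trans ((measure_biUnion_finset_le _ _).trans ?_)
  refine (Finset.sum_le_card_nsmul _ _ _ fun N _ => hone N).trans ?_
  rw [nsmul_eq_mul, ← ENNReal.ofReal_natCast, ← ENNReal.ofReal_mul (Nat.cast_nonneg _)]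
  refine ENNReal.ofReal_le_ofReal ?_
  have hR : 0 ≤ C * Real.log (2 * (X : ℝ)) ^ (2 * m * s) * (X : ℝ) ^ (2 * m * δ' - k - 1) := by positivity
  refine (mul_le_mul_of_nonneg_right hcard hR).trans (le_of_eq ?_)
  have e1 : Y * (X : ℝ) ^ (2 * m * δ' - k - 1) = (X : ℝ) ^ (-(3 / 4 - 2 * m * δ')) := by
    rw [hY, ← Real.rpow_add hXpos]
    congr 1
    ring
  rw [← e1]
  ring

theorem dbc (h1 : S_DKEY) (h2 : S_DMOM) (h3 : S_DL1) : S_DBC := by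
  intro r m k s δ hr hrk hnr hks hH hδ0 hδ1
  have h96 : 96 * r ≤ 2 * m := by
    refine le_trans ?_ hnr
    unfold nr
    have h2 : 8 ≤ 2 ^ (r + 2) := by
      calc 8 = 2 ^ 3 := by norm_num
        _ ≤ 2 ^ (r + 2) := Nat.pow_le_pow_right (by norm_num) (by omega)
    calc 96 * r = 4 * r * 3 * 8 := by ring
      _ ≤ 4 * r * (r + 2) * 2 ^ (r + 2) := by gcongr; omega
  have hm : 1 ≤ m := by omega
  have hs : 2 * r + 3 ≤ s := by
    have h4 : 95 * r ≤ 2 * m - r := by omega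
    have h5 : 95 * r * (r + 1) ≤ (2 * m - r) * (r + 1) := Nat.mul_le_mul_right _ h4
    have h6 : r * (95 * (r + 1)) ≤ r * s := by nlinarith
    have h7 : 95 * (r + 1) ≤ s := Nat.le_of_mul_le_mul_left h6 (by omega)
    omega
  have hs' : 2 * (r : ℝ) + 3 ≤ s := by exact_mod_cast hs
  have hr1 : (1 : ℝ) ≤ r := by exact_mod_cast hr
  have hm1 : (1 : ℝ) ≤ m := by exact_mod_cast hm
  set c : ℝ := min (δ * ((s : ℝ) / 2 - 1)) ((s : ℝ) / 2 - r) with hc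
  have hc0 : 0 < c := lt_min (mul_pos hδ0 (by linarith)) (by linarith)
  set δ' : ℝ := min (c / 2) (1 / (8 * m)) with hδ'
  have hδ'0 : 0 < δ' := lt_min (by linarith) (by positivity)
  have hδ'c : δ' < c := (min_le_left _ _).trans_lt (by linarith)
  have hδ'm : 2 * m * δ' < 3 / 4 := by
    have h4 : δ' ≤ 1 / (8 * m) := min_le_right _ _
    have h5 : 2 * (m : ℝ) * δ' ≤ 2 * m * (1 / (8 * m)) := mul_le_mul_of_nonneg_left h4 (by positivity)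
    have h6 : 2 * (m : ℝ) * (1 / (8 * m)) = 1 / 4 := by field_simp; norm_num
    linarith
  refine ⟨δ', hδ'0, ?_⟩
  filter_upwards [part1 h3 hr hrk (by omega : 3 ≤ s) hδ0 hδ1 (min_le_left _ _) (min_le_right _ _) hδ'c,
    part2 h1 h2 hr hrk hnr hks hH hm hδ'm] with α hα1 hα2
  obtain ⟨ν1, hν1⟩ := hα1
  obtain ⟨ν2, hν2⟩ := hα2
  refine ⟨max ν1 ν2, ?_⟩
  rintro ν X hν rfl
  have a1 := hν1 ν ((le_max_left _ _).trans hν)
  have a2 := hν2 ν ((le_max_right _ _).trans hν)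
  refine ⟨not_lt.1 a1, fun N hN => ?_⟩
  by_contra hcon
  exact a2 ⟨N, hN, not_le.1 hcon⟩

end Pool.Agent.N459.KW
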