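import Pool.Agent.N661.QB.Stm

/-!
# QB/FDD: joint laws of values in random frames
-/

set_option autoImplicit false
open MeasureTheory Filter Topology Complex ProbabilityTheory
open scoped ContDiff

namespace Pool.Agent.N459.QBFDD

open Pool.Agent.N661.BR (MW lin meas_eval)
open Pool.Agent.N661.BH (HP loc mv LocalLaws area frames)
open Pool.Agent.N661.QB
open Pool.Agent.N814.BHM

noncomputable section

variable {Ω : Set ℂ} {lam : ℕ → ℝ} {u : ℕ → ℂ → ℝ}

lemma HP_open : IsOpen HP := isOpen_lt continuous_const Complex.continuous_im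

open Classical in
/-- the extension by zero -/
def ext (u : ℂ → ℝ) : ℂ → ℝ := HP.piecewise u 0

open Classical in
lemma ext_meas {u : ℂ → ℝ} (hu : ContinuousOn u HP) : Measurable (ext u) :=
  hu.measurable_piecewise continuousOn_const HP_open.measurableSet

open Classical in
lemma ext_eq {u : ℂ → ℝ} {z : ℂ} (hz : z ∈ HP) : ext u z = u z := by
  unfold ext
  rw [Set.piecewise_eq_of_mem _ _ _ hz]

lemma rot_meas (w : ℂ) : Measurable (fun q : ℝ × Bool => rot q w) := by
  unfold rot
  refine Measurable.ite ?_ ?_ ?_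
  · exact measurable_snd (measurableSet_singleton true)
  · fun_prop
  · fun_prop

lemma rot_norm (q : ℝ × Bool) (w : ℂ) : ‖rot q w‖ = ‖w‖ := by
  unfold rot
  split_ifs
  · rw [norm_mul, Complex.norm_exp_ofReal_mul_I, one_mul]
  · rw [norm_mul, Complex.norm_exp_ofReal_mul_I, one_mul, Complex.norm_conj]

/-- a measurable version of `Y` -/
def Yt (lam : ℝ) (u : ℂ → ℝ) (w : ℂ) (p : ℂ × (ℝ × Bool)) : ℝ :=
  ext u (p.1 + ((p.1.im / √lam : ℝ) : ℂ) * rot p.2 w)

lemma Yt_meas {lam : ℝ} {u : ℂ → ℝ} (hu : ContinuousOn u HP) (w : ℂ) :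
    Measurable (Yt lam u w) := by
  unfold Yt
  refine (ext_meas hu).comp (measurable_fst.add (Measurable.mul ?_ ?_))
  · exact Complex.measurable_ofReal.comp
      ((Complex.measurable_im.comp measurable_fst).div_const _)
  · exact (rot_meas w).comp measurable_snd

lemma Yt_eq {lam : ℝ} {u : ℂ → ℝ} {w : ℂ} {p : ℂ × (ℝ × Bool)} (hw : 1 / √lam * ‖w‖ < 1)
    (hp : p.1 ∈ HP) : Yt lam u w p = Y lam u w p := by
  unfold Yt Y loc
  apply ext_eq
  have hz : 0 < p.1.im := hp
  change 0 < (p.1 + ((p.1.im / √lam : ℝ) : ℂ) * rot p.2 w).im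
  rw [Complex.add_im, Complex.im_ofReal_mul]
  have h1 : |(rot p.2 w).im| ≤ ‖w‖ := (Complex.abs_im_le_norm _).trans (rot_norm _ _).le
  have h2 : -‖w‖ ≤ (rot p.2 w).im := (abs_le.1 h1).1
  have h3 : p.1.im / √lam * (rot p.2 w).im ≥ -(p.1.im * (1 / √lam * ‖w‖)) := by
    have h4 : 0 ≤ p.1.im / √lam := by positivity
    have h5 := mul_le_mul_of_nonneg_left h2 h4
    have h6 : p.1.im / √lam * -‖w‖ = -(p.1.im * (1 / √lam * ‖w‖)) := by ring
    linarith
  nlinarith

lemma mpos (H : HypE Ω lam u) : 0 < mass Ω := mass_pos H.op (fun z hz => H.sub hz) H.ne H.int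

lemma probz (H : HypE Ω lam u) : IsProbabilityMeasure (Pz Ω) :=
  Pz_prob H.op (fun z hz => H.sub hz) H.ne H.int

lemma probP (H : HypE Ω lam u) : IsProbabilityMeasure (P Ω) := by
  have := probz H
  unfold P
  infer_instance

lemma aeP (H : HypE Ω lam u) : ∀ᵐ p ∂(P Ω), p.1 ∈ Ω := by
  have := probz H
  unfold P
  exact Measure.quasiMeasurePreserving_fst.ae (ae_Pz H.op.measurableSet)

lemma cont (H : HypE Ω lam u) (n : ℕ) : ContinuousOn (u n) HP := (H.sm n).continuousOn

lemma small (H : HypE Ω lam u) {k : ℕ} (w : Fin k → ℂ) :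
    ∀ᶠ n in atTop, ∀ j, 1 / √(lam n) * ‖w j‖ < 1 := by
  refine Filter.eventually_all.2 fun j => ?_
  have h1 : Tendsto (fun n => 1 / √(lam n) * ‖w j‖) atTop (𝓝 (0 * ‖w j‖)) := by
    refine Tendsto.mul_const _ ?_
    simp only [one_div]
    exact (Real.tendsto_sqrt_atTop.comp H.lim).inv_tendsto_atTop
  rw [zero_mul] at h1
  exact h1.eventually (gt_mem_nhds one_pos)

lemma area_one : area Ω (fun _ => 1) = ((mass Ω : ℝ) : ℂ) := by
  unfold area mass
  simp only [mul_one]
  exact integral_ofReal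

/-- the characteristic function of the joint law -/
lemma chrV (H : HypE Ω lam u) {n k : ℕ} (w : Fin k → ℂ) (t : Fin k → ℝ)
    (hw : ∀ j, 1 / √(lam n) * ‖w j‖ < 1) :
    ∫ p, Complex.exp (I * ((∑ j, t j * Yt (lam n) (u n) (w j) p : ℝ) : ℂ)) ∂(P Ω) =
      (area Ω fun z => frames (fun v => Complex.exp (I *
        ((∑ j, t j * loc (lam n) (u n) z (v j) : ℝ) : ℂ))) w) / area Ω fun _ => 1 := by
  have := probz H
  have := probP H
  set ex : ℂ × (ℝ × Bool) → ℂ := fun p =>
    Complex.exp (I * ((∑ j, t j * Yt (lam n) (u n) (w j) p : ℝ) : ℂ)) with hex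
  have hm : Measurable ex := by
    have h1 : Measurable fun p => ∑ j, t j * Yt (lam n) (u n) (w j) p :=
      Finset.measurable_fun_sum _ fun j _ => (Yt_meas (cont H n) (w j)).const_mul (t j)
    exact Complex.measurable_exp.comp ((Complex.measurable_ofReal.comp h1).const_mul I)
  have hnorm : ∀ p, ‖ex p‖ = 1 := by
    intro p
    rw [hex]
    simp only
    rw [mul_comm]
    exact Complex.norm_exp_ofReal_mul_I _
  have hi : Integrable ex (P Ω) :=
    Integrable.of_bound hm.aestronglyMeasurable 1 (Eventually.of_forall fun p => (hnorm p).le)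
  rw [area_one]
  unfold P at hi ⊢
  rw [integral_prod _ hi, int_Pz (mpos H), Complex.real_smul, div_eq_inv_mul, Complex.ofReal_inv]
  congr 1
  unfold area
  refine setIntegral_congr_fun H.op.measurableSet fun z hz => ?_
  show (1 / z.im ^ 2) • ∫ q, ex (z, q) ∂Q = _
  rw [Complex.real_smul]
  congr 1
  have hi2 : Integrable (fun q => ex (z, q)) Q :=
    Integrable.of_bound (hm.comp measurable_prodMk_left).aestronglyMeasurable 1
      (Eventually.of_forall fun p => (hnorm _).le)
  rw [int_Q _ hi2, Complex.real_smul]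
  unfold frames
  congr 1
  congr 1
  funext θ
  have hv : ∀ (b : Bool) (j : Fin k), Yt (lam n) (u n) (w j) (z, (θ, b)) =
      loc (lam n) (u n) z (rot (θ, b) (w j)) := fun b j => Yt_eq (hw j) (H.sub hz)
  congr 1
  · rw [hex]
    simp only [hv]
    rfl
  · rw [hex]
    simp only [hv]
    rfl

/-- the vector of the values -/
def vec {k : ℕ} (x : Fin k → ℝ) : EuclideanSpace ℝ (Fin k) := WithLp.toLp 2 x

lemma vec_meas {k : ℕ} : Measurable (vec : (Fin k → ℝ) → EuclideanSpace ℝ (Fin k)) := by
  unfold vec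
  fun_prop

lemma inner_vec {k : ℕ} (x : Fin k → ℝ) (t : EuclideanSpace ℝ (Fin k)) :
    inner ℝ (vec x) t = ∑ j, t j * x j := by
  unfold vec
  rw [PiLp.inner_apply]
  refine Finset.sum_congr rfl fun j _ => ?_
  simp

theorem FDD : S_FDD := by
  intro Ω lam u H μ hμ hL k w G hG hGb
  have := probP H
  obtain ⟨C, hC⟩ := hGb
  set V : ℕ → ℂ × (ℝ × Bool) → EuclideanSpace ℝ (Fin k) :=
    fun n p => vec fun j => Yt (lam n) (u n) (w j) p with hV
  have hVm : ∀ n, Measurable (V n) := fun n =>
    vec_meas.comp (measurable_pi_lambda _ fun j => Yt_meas (cont H n) (w j))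
  set Z : MW → EuclideanSpace ℝ (Fin k) := fun f => vec fun j => f (w j) with hZ
  have hZm : Measurable Z := vec_meas.comp (measurable_pi_lambda _ fun j => meas_eval (w j))
  let Pn : ℕ → ProbabilityMeasure (EuclideanSpace ℝ (Fin k)) := fun n =>
    ⟨(P Ω).map (V n), Measure.isProbabilityMeasure_map (hVm n).aemeasurable⟩
  let P0 : ProbabilityMeasure (EuclideanSpace ℝ (Fin k)) :=
    ⟨μ.map Z, Measure.isProbabilityMeasure_map hZm.aemeasurable⟩
  have hlim : Tendsto Pn atTop (𝓝 P0) := by
    refine ProbabilityMeasure.tendsto_of_tendsto_charFun fun t => ?_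
    have h1 := hL k w (fun j => t j)
    have e2 : charFun (P0 : Measure _) t = ∫ f, Complex.exp (I * (lin w (fun j => t j) f : ℝ)) ∂μ := by
      change charFun (μ.map Z) t = _
      rw [charFun_apply, integral_map hZm.aemeasurable (by fun_prop)]
      refine integral_congr_ae (Eventually.of_forall fun f => ?_)
      simp only [hZ]
      rw [inner_vec, mul_comm]
      rfl
    rw [e2]
    refine h1.congr' ?_
    filter_upwards [small H w] with n hn
    rw [← chrV H w (fun j => t j) hn]
    change _ = charFun ((P Ω).map (V n)) t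
    rw [charFun_apply, integral_map (hVm n).aemeasurable (by fun_prop)]
    refine integral_congr_ae (Eventually.of_forall fun p => ?_)
    simp only [hV]
    rw [inner_vec, mul_comm]
  have hGc : Continuous (fun x : EuclideanSpace ℝ (Fin k) => G (fun j => x j)) :=
    hG.comp (by fun_prop)
  have hw := (ProbabilityMeasure.tendsto_iff_forall_integral_tendsto.1 hlim)
    (BoundedContinuousFunction.ofNormedAddCommGroup
      (fun x : EuclideanSpace ℝ (Fin k) => G (fun j => x j)) hGc C fun x => by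
      rw [Real.norm_eq_abs]; exact hC _)
  have e5 : ∫ x, (BoundedContinuousFunction.ofNormedAddCommGroup
      (fun x : EuclideanSpace ℝ (Fin k) => G (fun j => x j)) hGc C fun x => by
      rw [Real.norm_eq_abs]; exact hC _) x ∂((P0 : ProbabilityMeasure _) : Measure _) =
      ∫ f : MW, G (fun j => f (w j)) ∂μ := by
    show ∫ x, G (fun j => x j) ∂(μ.map Z) = _
    rw [integral_map hZm.aemeasurable hGc.aestronglyMeasurable]
    rfl
  rw [e5] at hw
  refine hw.congr' ?_
  filter_upwards [small H w] with n hn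
  show ∫ x, G (fun j => x j) ∂((P Ω).map (V n)) = _
  rw [integral_map (hVm n).aemeasurable hGc.aestronglyMeasurable]
  refine integral_congr_ae ?_
  filter_upwards [aeP H] with p hp
  simp only [hV]
  have e6 : (fun j => (vec fun j => Yt (lam n) (u n) (w j) p) j) =
      fun j => Y (lam n) (u n) (w j) p := by
    funext j
    exact Yt_eq (hn j) (H.sub hp)
  rw [e6]

end

end Pool.Agent.N459.QBFDD
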